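import Mathlib
import Pool.Agent.Y248.BA.LocC
set_option autoImplicit false

/-! # Project FB: Bochner-Riesz means on sets of dimension at most `n/2`: definitions, statements -/

namespace Pool.Agent.Y248.FB

open MeasureTheory Set Metric Complex Filter
open scoped ENNReal RealInnerProductSpace Topology FourierTransform
open Pool.Agent.H789R2.FR (E sg T)
open Pool.Agent.H438R2.RZ (Bump)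
open Pool.Agent.Y248.BA (mu Kr Tp)

/-- `μ` has dimension at most `α` at all scales `≥ 1` -/
def Dim {n : ℕ} (α : ℝ) (μ : Measure (E n)) : Prop :=
  ∀ (x : E n) (r : ℝ), 1 ≤ r → μ (closedBall x r) ≤ ENNReal.ofReal (r ^ α)

/-- decay exponent of the Fourier transform of the sphere -/
noncomputable def kap (n : ℕ) : ℝ := ((n : ℝ) - 1) / 2

/-- measurable choices of radii in `[1,2]` -/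
def Radii {n : ℕ} (R : E n → ℝ) : Prop := Measurable R ∧ ∀ x, 1 ≤ R x ∧ R x ≤ 2

/-- the dual object of the linearised piece: `∫ m_{R(x)}(ξ) g(x) e^{2πi x.ξ} dμ(x)` -/
noncomputable def Hd {n : ℕ} (ψ : ℝ → ℝ) (A : ℝ) (R : E n → ℝ) (g : E n → ℂ) (μ : Measure (E n))
    (ξ : E n) : ℂ :=
  ∫ x : E n, mu ψ A (R x) ξ * g x * cexp (((2 * Real.pi * ⟪x, ξ⟫ : ℝ) : ℂ) * I) ∂μ

/-- the multiplier of the mean of order `δ ≥ 0` and radius `R` (for `δ = 0` the indicator of the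
open ball) -/
noncomputable def ml {n : ℕ} (δ R : ℝ) (ξ : E n) : ℂ :=
  if ‖ξ‖ < R then (((1 - ‖ξ‖ ^ 2 / R ^ 2) ^ δ : ℝ) : ℂ) else 0

/-- the mean of order `δ ≥ 0` and radius `R` of a Schwartz function -/
noncomputable def Sm {n : ℕ} (δ R : ℝ) (f : E n → ℂ) (x : E n) : ℂ :=
  ∫ ξ : E n, ml δ R ξ * 𝓕 f ξ * cexp (((2 * Real.pi * ⟪x, ξ⟫ : ℝ) : ℂ) * I)

/-- `RAD`: Fourier transforms of radial functions carried by thin shells -/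
def S_RAD (n : ℕ) : Prop := ∃ C : ℝ, 0 < C ∧ ∀ (a : ℝ → ℂ) (r₀ r₁ : ℝ), Measurable a →
  (∀ r, ‖a r‖ ≤ 1) → 1 / 2 ≤ r₀ → r₀ ≤ r₁ → r₁ ≤ 2 → (∀ r, a r ≠ 0 → r₀ ≤ r ∧ r ≤ r₁) →
  ∀ w : E n, ‖𝓕 (fun ξ : E n => a ‖ξ‖) w‖ ≤ C * (r₁ - r₀) * (1 + ‖w‖) ^ (-kap n)

/-- `KK`: decay of the kernels of the pieces and of their products -/
def S_KK (n : ℕ) : Prop := ∀ ψ : ℝ → ℝ, Bump ψ → ∃ C : ℝ, 0 < C ∧ ∀ A R R' : ℝ, 4 ≤ A →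
  1 ≤ R → R ≤ 2 → 1 ≤ R' → R' ≤ 2 → ∀ w : E n,
    ‖Kr (n := n) ψ A R w‖ ≤ C / A * (1 + ‖w‖) ^ (-kap n) ∧
    ‖𝓕 (fun ξ : E n => mu ψ A R ξ * mu ψ A R' ξ) w‖ ≤ C / A * (1 + ‖w‖) ^ (-kap n)

/-- `HLS`: a Hardy-Littlewood-Sobolev type inequality at scale `r` -/
def S_HLS (n : ℕ) : Prop := ∀ α p : ℝ, 0 ≤ α → 2 ≤ p → ∀ μ : Measure (E n), Dim α μ →
  ∀ g : E n → ℝ≥0∞, Measurable g → ∀ r : ℝ, 1 ≤ r →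
    ∫⁻ x, ∫⁻ y in closedBall x r, g x * g y ∂μ ∂μ ≤
      ENNReal.ofReal (r ^ (2 * α / p)) * (∫⁻ x, g x ^ (p / (p - 1)) ∂μ) ^ (2 * (p - 1) / p)

/-- `EN`: the energy bound -/
def S_EN (n : ℕ) : Prop := ∀ ψ : ℝ → ℝ, Bump ψ → ∀ α p ε : ℝ, 0 ≤ α → 2 ≤ p → 0 < ε →
  ∃ C : ℝ, 0 < C ∧ ∀ μ : Measure (E n), Dim α μ → ∀ A : ℝ, 4 ≤ A → ∀ R : E n → ℝ, Radii R →
  ∀ (u : E n) (ρ : ℝ), 1 ≤ ρ → ∀ g : E n → ℂ, Measurable g → (∃ M : ℝ, ∀ x, ‖g x‖ ≤ M) →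
  (∀ x, x ∉ closedBall u ρ → g x = 0) →
    ∫⁻ ξ, ‖Hd ψ A R g μ ξ‖ₑ ^ (2 : ℝ) ≤
      ENNReal.ofReal (C / A * ρ ^ (max (2 * α / p - kap n) 0 + ε)) *
        (∫⁻ x, ‖g x‖ₑ ^ (p / (p - 1)) ∂μ) ^ (2 * (p - 1) / p)

/-- `L2P`: from `L^2(dx)` to `L^p(μ)`, `p ≥ 2`, on balls -/
def S_L2P (n : ℕ) : Prop := ∀ ψ : ℝ → ℝ, Bump ψ → ∀ α p ε : ℝ, 0 ≤ α → 2 ≤ p → 0 < ε →
  ∃ C : ℝ, 0 < C ∧ ∀ μ : Measure (E n), Dim α μ → ∀ A : ℝ, 4 ≤ A → ∀ R : E n → ℝ, Radii R →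
  ∀ (u : E n) (ρ : ℝ), 1 ≤ ρ → ∀ f : E n → ℂ, Measurable f → Integrable f → MemLp f 2 →
    ∫⁻ x in closedBall u ρ, ‖Tp ψ A (R x) f x‖ₑ ^ p ∂μ ≤
      ENNReal.ofReal ((C / A * ρ ^ (max (2 * α / p - kap n) 0 + ε)) ^ (p / 2)) *
        (∫⁻ x, ‖f x‖ₑ ^ (2 : ℝ)) ^ (p / 2)

/-- `NEAR`: from `L^p(dx)` to `L^p(μ)`, `p ≥ 2`, on balls -/
def S_NEAR (n : ℕ) : Prop := ∀ ψ : ℝ → ℝ, Bump ψ → ∀ α p ε : ℝ, 0 ≤ α → 2 ≤ p → 0 < ε →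
  ∃ C : ℝ, 0 < C ∧ ∀ μ : Measure (E n), Dim α μ → ∀ A : ℝ, 4 ≤ A → ∀ R : E n → ℝ, Radii R →
  ∀ (u : E n) (ρ : ℝ), 1 ≤ ρ → ∀ f : E n → ℂ, Measurable f →
  (∀ x, x ∉ closedBall u (2 * ρ) → f x = 0) → ∫⁻ x, ‖f x‖ₑ ^ p ≠ ∞ →
    ∫⁻ x in closedBall u ρ, ‖Tp ψ A (R x) f x‖ₑ ^ p ∂μ ≤
      ENNReal.ofReal (C * A ^ (-(p / 2)) * ρ ^ ((max (2 * α / p - kap n) 0 + ε) * (p / 2) +
        n * (p / 2 - 1))) * ∫⁻ x, ‖f x‖ₑ ^ p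

/-- `SM`: from `L^p(dx)` to `L^p(μ)`, `1 < p < 2`, on balls -/
def S_SM (n : ℕ) : Prop := ∀ ψ : ℝ → ℝ, Bump ψ → ∀ α p ε : ℝ, kap n ≤ α → α ≤ (n : ℝ) - 1 →
  1 < p → p < 2 → 0 < ε →
  ∃ C : ℝ, 0 < C ∧ ∀ μ : Measure (E n), Dim α μ → ∀ A : ℝ, 4 ≤ A → ∀ R : E n → ℝ, Radii R →
  ∀ (u : E n) (ρ : ℝ), 1 ≤ ρ → ∀ f : E n → ℂ, Measurable f →
  (∀ x, x ∉ closedBall u (2 * ρ) → f x = 0) → ∫⁻ x, ‖f x‖ₑ ^ p ≠ ∞ →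
    ∫⁻ x in closedBall u ρ, ‖Tp ψ A (R x) f x‖ₑ ^ p ∂μ ≤
      ENNReal.ofReal (C * A ^ (-(1 : ℝ)) * ρ ^ (α * (1 - p / 2) + (α - kap n) * (p - 1) + ε)) *
        ∫⁻ x, ‖f x‖ₑ ^ p

/-- `GL`: globalisation -/
def S_GL (n : ℕ) : Prop := ∀ ψ : ℝ → ℝ, Bump ψ → ∀ α p ε M : ℝ, 0 ≤ α → α ≤ n → 1 ≤ p → 0 < ε →
  ∃ C : ℝ, 0 < C ∧ ∀ μ : Measure (E n), Dim α μ → ∀ A : ℝ, 1 ≤ A → ∀ R : E n → ℝ, Radii R →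
  ∀ D : ℝ, 0 ≤ D →
  (∀ (u : E n) (g : E n → ℂ), Measurable g →
    (∀ x, x ∉ closedBall u (2 * A ^ (1 + ε)) → g x = 0) → ∫⁻ x, ‖g x‖ₑ ^ p ≠ ∞ →
    ∫⁻ x in closedBall u (A ^ (1 + ε)), ‖Tp ψ A (R x) g x‖ₑ ^ p ∂μ ≤
      ENNReal.ofReal D * ∫⁻ x, ‖g x‖ₑ ^ p) →
  ∀ f : E n → ℂ, Measurable f → ∫⁻ x, ‖f x‖ₑ ^ p ≠ ∞ →
    ∫⁻ x, ‖Tp ψ A (R x) f x‖ₑ ^ p ∂μ ≤
      ENNReal.ofReal (2 ^ (p - 1) * (2 ^ n * D + C * A ^ (-M))) * ∫⁻ x, ‖f x‖ₑ ^ p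

/-- `CR`: crude bound, used for small `A` -/
def S_CR (n : ℕ) : Prop := ∀ ψ : ℝ → ℝ, Bump ψ → ∀ α p : ℝ, 0 ≤ α → α ≤ n → 1 ≤ p →
  ∃ C : ℝ, 0 < C ∧ ∀ μ : Measure (E n), Dim α μ → ∀ A : ℝ, 1 ≤ A → A ≤ 4 → ∀ R : E n → ℝ, Radii R →
  ∀ f : E n → ℂ, Measurable f → ∫⁻ x, ‖f x‖ₑ ^ p ≠ ∞ →
    ∫⁻ x, ‖Tp ψ A (R x) f x‖ₑ ^ p ∂μ ≤ ENNReal.ofReal C * ∫⁻ x, ‖f x‖ₑ ^ p

/-- `PC`: the bound for a piece with exponent `σ` (to the power `p`) -/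
def PC (n : ℕ) (α p σ : ℝ) : Prop := ∀ ψ : ℝ → ℝ, Bump ψ →
  ∃ C : ℝ, 0 < C ∧ ∀ μ : Measure (E n), Dim α μ → ∀ A : ℝ, 1 ≤ A → ∀ R : E n → ℝ, Radii R →
  ∀ f : E n → ℂ, Measurable f → ∫⁻ x, ‖f x‖ₑ ^ p ≠ ∞ →
    ∫⁻ x, ‖Tp ψ A (R x) f x‖ₑ ^ p ∂μ ≤ ENNReal.ofReal (C * A ^ (p * σ)) * ∫⁻ x, ‖f x‖ₑ ^ p

/-- `HS`: the mean as a sum of pieces -/
def S_HS (n : ℕ) : Prop := ∀ δ : ℝ, 0 ≤ δ → ∃ ψ : ℝ → ℝ, Bump ψ ∧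
  ∀ f : SchwartzMap (E n) ℂ, ∀ R : ℝ, 1 ≤ R → R ≤ 2 → ∀ x : E n,
    HasSum (fun j : ℕ => (((2 : ℝ) ^ (-(δ * j)) : ℝ) : ℂ) * Tp ψ (2 ^ j) R (fun y => f y) x)
      (Sm δ R (fun y => f y) x)

/-- `UN`: the maximal theorem for radii in `[1,2]` -/
def UN (n : ℕ) (α p δ : ℝ) : Prop := ∃ C : ℝ, 0 < C ∧ ∀ μ : Measure (E n), Dim α μ →
  ∀ R : E n → ℝ, Radii R → ∀ f : SchwartzMap (E n) ℂ,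
    ∫⁻ x, ‖Sm δ (R x) (fun y => f y) x‖ₑ ^ p ∂μ ≤ ENNReal.ofReal C * ∫⁻ x, ‖f x‖ₑ ^ p

/-- `SU`: summation of the pieces -/
def S_SU (n : ℕ) : Prop := ∀ α p δ σ : ℝ, 1 ≤ p → 0 ≤ δ → σ < δ → PC n α p σ → UN n α p δ

/-- the maximal theorem for all radii in `(0,1]` -/
def MX (n : ℕ) (α p δ : ℝ) : Prop := ∃ C : ℝ, 0 < C ∧ ∀ μ : Measure (E n), Dim α μ →
  ∀ R : E n → ℝ, Measurable R → (∀ x, 0 < R x ∧ R x ≤ 1) → ∀ f : SchwartzMap (E n) ℂ,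
    ∫⁻ x, ‖Sm δ (R x) (fun y => f y) x‖ₑ ^ p ∂μ ≤ ENNReal.ofReal C * ∫⁻ x, ‖f x‖ₑ ^ p

/-- `SC`: from radii in `[1,2]` to all radii in `(0,1]`, by scaling -/
def S_SC (n : ℕ) : Prop := ∀ α p δ : ℝ, 0 ≤ α → α < n → 1 ≤ p → 0 ≤ δ → UN n α p δ → MX n α p δ

/-- `DU`: functions supported in sets of dimension at most `α`, by duality -/
def S_DU (n : ℕ) : Prop := ∀ α p q δ : ℝ, 1 < p → 1 / p + 1 / q = 1 → 0 ≤ δ → MX n α p δ →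
  ∃ C : ℝ, 0 < C ∧ ∀ G : Set (E n), MeasurableSet G → Dim α ((volume : Measure (E n)).restrict G) →
    ∀ f : SchwartzMap (E n) ℂ, (∀ x, x ∉ G → f x = 0) →
      ∫⁻ x, ‖Sm δ 1 (fun y => f y) x‖ₑ ^ q ≤ ENNReal.ofReal C * ∫⁻ x, ‖f x‖ₑ ^ q

end Pool.Agent.Y248.FB
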