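import Mathlib
import Pool.Agent.Y248.FB.Stm
set_option autoImplicit false

/-! # Project FB: assembly of the bound for the pieces -/

namespace Pool.Agent.Y248.FB

open MeasureTheory Set Metric Complex Filter
open scoped ENNReal RealInnerProductSpace Topology FourierTransform
open Pool.Agent.H789R2.FR (E sg T)
open Pool.Agent.H438R2.RZ (Bump)
open Pool.Agent.Y248.BA (mu Kr Tp)

/-- from local estimates for `A ≥ 4` to all `A ≥ 1` -/
theorem pc_of_local (n : ℕ) (hGL : S_GL n) (hCR : S_CR n) (α p σ : ℝ) (hα0 : 0 ≤ α) (hαn : α ≤ n)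
    (hp : 1 ≤ p) (ε : ℝ) (hε : 0 < ε)
    (H : ∀ ψ : ℝ → ℝ, Bump ψ → ∃ C : ℝ, 0 < C ∧ ∀ μ : Measure (E n), Dim α μ → ∀ A : ℝ, 4 ≤ A →
      ∀ R : E n → ℝ, Radii R → ∀ (u : E n) (f : E n → ℂ), Measurable f →
      (∀ x, x ∉ closedBall u (2 * A ^ (1 + ε)) → f x = 0) → ∫⁻ x, ‖f x‖ₑ ^ p ≠ ∞ →
      ∫⁻ x in closedBall u (A ^ (1 + ε)), ‖Tp ψ A (R x) f x‖ₑ ^ p ∂μ ≤
        ENNReal.ofReal (C * A ^ (p * σ)) * ∫⁻ x, ‖f x‖ₑ ^ p) : PC n α p σ := by
  intro ψ hψ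
  obtain ⟨C1, hC1, h1⟩ := H ψ hψ
  obtain ⟨C2, hC2, h2⟩ := hGL ψ hψ α p ε |p * σ| hα0 hαn hp hε
  obtain ⟨C3, hC3, h3⟩ := hCR ψ hψ α p hα0 hαn hp
  set c : ℝ := min 1 ((4 : ℝ) ^ (p * σ)) with hc
  have hc0 : 0 < c := lt_min one_pos (Real.rpow_pos_of_pos (by norm_num) _)
  refine ⟨2 ^ (p - 1) * (2 ^ n * C1 + C2) + C3 / c, by positivity, fun μ hμ A hA R hR f hf hfp => ?_⟩
  have hA0 : 0 < A := by linarith
  have hAσ : 0 < A ^ (p * σ) := Real.rpow_pos_of_pos hA0 _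
  rcases le_total A 4 with hA4 | hA4
  · refine (h3 μ hμ A hA hA4 R hR f hf hfp).trans ?_
    gcongr
    have h4 : c ≤ A ^ (p * σ) := by
      rcases le_total 0 (p * σ) with h | h
      · exact (min_le_left _ _).trans (Real.one_le_rpow hA h)
      · exact (min_le_right _ _).trans (Real.rpow_le_rpow_of_nonpos hA0 hA4 h)
    have h5 : C3 ≤ C3 / c * A ^ (p * σ) := by
      rw [div_mul_eq_mul_div, le_div_iff₀ hc0]
      exact mul_le_mul_of_nonneg_left h4 hC3.le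
    refine h5.trans ?_
    gcongr
    have : 0 ≤ (2 : ℝ) ^ (p - 1) * (2 ^ n * C1 + C2) := by positivity
    linarith
  · refine (h2 μ hμ A hA R hR (C1 * A ^ (p * σ)) (by positivity)
      (fun u g hg hg2 hg3 => h1 μ hμ A hA4 R hR u g hg hg2 hg3) f hf hfp).trans ?_
    refine mul_le_mul' (ENNReal.ofReal_le_ofReal ?_) le_rfl
    have h6 : A ^ (-|p * σ|) ≤ A ^ (p * σ) :=
      Real.rpow_le_rpow_of_exponent_le hA (neg_abs_le _)
    calc 2 ^ (p - 1) * (2 ^ n * (C1 * A ^ (p * σ)) + C2 * A ^ (-|p * σ|))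
        ≤ 2 ^ (p - 1) * (2 ^ n * (C1 * A ^ (p * σ)) + C2 * A ^ (p * σ)) := by gcongr
      _ = (2 ^ (p - 1) * (2 ^ n * C1 + C2)) * A ^ (p * σ) := by ring
      _ ≤ _ := by
        gcongr
        have : 0 ≤ C3 / c := by positivity
        linarith

/-- an auxiliary choice of a small parameter -/
theorem exists_eps {g : ℝ → ℝ} (hg : Continuous g) {a : ℝ} (h : g 0 < a) :
    ∃ ε : ℝ, 0 < ε ∧ g ε ≤ a := by
  have h1 : ∀ᶠ ε in 𝓝 (0 : ℝ), g ε < a := hg.continuousAt.eventually (gt_mem_nhds h)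
  obtain ⟨r, hr, hb⟩ := Metric.eventually_nhds_iff.1 h1
  refine ⟨r / 2, by positivity, (hb ?_).le⟩
  rw [Real.dist_eq, sub_zero, abs_of_pos (by positivity)]
  linarith

theorem pc_big (n : ℕ) (hN : S_NEAR n) (hGL : S_GL n) (hCR : S_CR n) (α p σ : ℝ)
    (hα0 : 0 ≤ α) (hαn : α ≤ n) (hp : 2 ≤ p)
    (h1 : ((n : ℝ) - 1) / 4 - ((n : ℝ) - α) / p < σ) (h2 : ((n : ℝ) - 1) / 2 - n / p < σ) :
    PC n α p σ := by
  have hp0 : 0 < p := by linarith
  set m : ℝ := max (2 * α / p - kap n) 0 with hm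
  obtain ⟨ε, hε, he⟩ := exists_eps (g := fun ε => -(p / 2) + (1 + ε) *
    ((m + ε) * (p / 2) + n * (p / 2 - 1))) (by fun_prop) (a := p * σ) (by
      simp only [add_zero, one_mul]
      have : -(p / 2) + (m * (p / 2) + n * (p / 2 - 1)) =
        p * (-(1 / 2) + m / 2 + n / 2 - n / p) := by field_simp; ring
      rw [this]
      refine mul_lt_mul_of_pos_left ?_ hp0
      rcases max_cases (2 * α / p - kap n) 0 with ⟨h, _⟩ | ⟨h, _⟩
      · rw [hm, h]; unfold kap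
        have e1 : 2 * α / p = 2 * (α / p) := by ring
        have e2 : ((n : ℝ) - α) / p = n / p - α / p := by ring
        rw [e2] at h1
        rw [e1]; linarith
      · rw [hm, h]; linarith)
  refine pc_of_local n hGL hCR α p σ hα0 hαn (by linarith) ε hε fun ψ hψ => ?_
  obtain ⟨C, hC, hb⟩ := hN ψ hψ α p ε hα0 hp hε
  refine ⟨C, hC, fun μ hμ A hA R hR u f hf hf2 hfp => ?_⟩
  have hA0 : 0 < A := by linarith
  have hA1 : 1 ≤ A := by linarith
  refine (hb μ hμ A hA R hR u (A ^ (1 + ε)) (Real.one_le_rpow hA1 (by linarith)) f hf hf2 hfp).trans ?_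
  refine mul_le_mul' (ENNReal.ofReal_le_ofReal ?_) le_rfl
  rw [mul_assoc, ← Real.rpow_mul hA0.le, ← Real.rpow_add hA0]
  refine mul_le_mul_of_nonneg_left ?_ hC.le
  exact Real.rpow_le_rpow_of_exponent_le hA1 he

theorem pc_small (n : ℕ) (hN : S_SM n) (hGL : S_GL n) (hCR : S_CR n) (α p σ : ℝ)
    (hα0 : kap n ≤ α) (hα00 : 0 ≤ α) (hαn : α ≤ (n : ℝ) - 1) (hp1 : 1 < p) (hp2 : p < 2)
    (h1 : (α - ((n : ℝ) - 1) + ((n : ℝ) - 3) / p) / 2 < σ) : PC n α p σ := by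
  have hp0 : 0 < p := by linarith
  obtain ⟨ε, hε, he⟩ := exists_eps (g := fun ε => -1 + (1 + ε) *
    (α * (1 - p / 2) + (α - kap n) * (p - 1) + ε)) (by fun_prop) (a := p * σ) (by
      simp only [add_zero, one_mul]
      have : -1 + (α * (1 - p / 2) + (α - kap n) * (p - 1)) =
        p * ((α - ((n : ℝ) - 1) + ((n : ℝ) - 3) / p) / 2) := by
          unfold kap
          field_simp
          ring
      rw [this]
      exact mul_lt_mul_of_pos_left h1 hp0)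
  refine pc_of_local n hGL hCR α p σ hα00 (by linarith) (by linarith) ε hε fun ψ hψ => ?_
  obtain ⟨C, hC, hb⟩ := hN ψ hψ α p ε hα0 hαn hp1 hp2 hε
  refine ⟨C, hC, fun μ hμ A hA R hR u f hf hf2 hfp => ?_⟩
  have hA0 : 0 < A := by linarith
  have hA1 : 1 ≤ A := by linarith
  refine (hb μ hμ A hA R hR u (A ^ (1 + ε)) (Real.one_le_rpow hA1 (by linarith)) f hf hf2 hfp).trans ?_
  refine mul_le_mul' (ENNReal.ofReal_le_ofReal ?_) le_rfl
  rw [mul_assoc, ← Real.rpow_mul hA0.le, ← Real.rpow_add hA0]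
  refine mul_le_mul_of_nonneg_left ?_ hC.le
  exact Real.rpow_le_rpow_of_exponent_le hA1 he

end Pool.Agent.Y248.FB
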