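import Mathlib
import Pool.Agent.Y248.FB.Asm
import Pool.Agent.Y407.FB.Rad
import Pool.Agent.Y210.FB.KK
import Pool.Agent.Y287.FB.Hls
import Pool.Agent.Y833.FB.EN
import Pool.Agent.Y515.FB.L2p
import Pool.Agent.Y71.FB.GlobB
import Pool.Agent.Y624.FB.SU
import Pool.Agent.Y624.FB.HS
import Pool.Agent.Y86.FB.SC
import Pool.Agent.Y948.FB.Sm
set_option autoImplicit false

/-! # Project FB: the maximal theorem for measures of small dimension -/

namespace Pool.Agent.Y248.FB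

open MeasureTheory Set Metric Complex Filter
open scoped ENNReal RealInnerProductSpace Topology FourierTransform
open Pool.Agent.H789R2.FR (E sg T)

theorem mx_big (n : ℕ) (hn : 2 ≤ n) (α p δ : ℝ) (hα0 : 0 ≤ α) (hαn : α < n) (hp : 2 ≤ p)
    (hδ : 0 ≤ δ) (h1 : ((n : ℝ) - 1) / 4 - ((n : ℝ) - α) / p < δ)
    (h2 : ((n : ℝ) - 1) / 2 - n / p < δ) : MX n α p δ := by
  have hKK := Pool.Agent.Y210.FB.t_kk n hn (Pool.Agent.Y407.FB.t_rad n hn)
  have hEN := Pool.Agent.Y833.FB.t_en n hn hKK (Pool.Agent.Y287.FB.t_hls n)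
  have hNear := Pool.Agent.Y515.FB.t_near n hn (Pool.Agent.Y515.FB.t_l2p n hn hEN)
  obtain ⟨σ, hσ1, hσ2⟩ := exists_between (max_lt h1 h2)
  have hPC := pc_big n hNear (Pool.Agent.Y71.FB.t_gl n hn) (Pool.Agent.Y71.FB.t_cr n hn) α p σ
    hα0 hαn.le hp ((le_max_left _ _).trans_lt hσ1) ((le_max_right _ _).trans_lt hσ1)
  exact Pool.Agent.Y86.FB.t_sc n hn α p δ hα0 hαn (by linarith) hδ
    (Pool.Agent.Y624.FB.t_su n hn (Pool.Agent.Y624.FB.t_hs n hn) α p δ σ (by linarith) hδ hσ2 hPC)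

theorem mx_small (n : ℕ) (hn : 2 ≤ n) (α p δ : ℝ) (hα0 : kap n ≤ α) (hαn : α ≤ (n : ℝ) - 1)
    (hp1 : 1 < p) (hp2 : p < 2) (hδ : 0 ≤ δ)
    (h1 : (α - ((n : ℝ) - 1) + ((n : ℝ) - 3) / p) / 2 < δ) : MX n α p δ := by
  have hKK := Pool.Agent.Y210.FB.t_kk n hn (Pool.Agent.Y407.FB.t_rad n hn)
  have hEN := Pool.Agent.Y833.FB.t_en n hn hKK (Pool.Agent.Y287.FB.t_hls n)
  have hSM := Pool.Agent.Y948.FB.t_sm n hn hKK hEN
  obtain ⟨σ, hσ1, hσ2⟩ := exists_between h1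
  have h0 : 0 ≤ kap n := by
    unfold kap
    have : (2 : ℝ) ≤ n := by exact_mod_cast hn
    linarith
  have hPC := pc_small n hSM (Pool.Agent.Y71.FB.t_gl n hn) (Pool.Agent.Y71.FB.t_cr n hn) α p σ
    hα0 (h0.trans hα0) hαn hp1 hp2 hσ1
  exact Pool.Agent.Y86.FB.t_sc n hn α p δ (h0.trans hα0) (by linarith) (by linarith) hδ
    (Pool.Agent.Y624.FB.t_su n hn (Pool.Agent.Y624.FB.t_hs n hn) α p δ σ (by linarith) hδ hσ2 hPC)

/-- the maximal theorem in dimension `n/2`, full range of the conjecture -/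
theorem mx_half (n : ℕ) (hn : 3 ≤ n) (p δ : ℝ) (hδ : 0 ≤ δ)
    (hp1 : 2 * (n : ℝ) / ((n : ℝ) + 1) ≤ p) (hp2 : p ≤ 2 * (n : ℝ) / ((n : ℝ) - 1))
    (h : 0 < δ ∨ p < 2 * (n : ℝ) / ((n : ℝ) - 1)) : MX n ((n : ℝ) / 2) p δ := by
  have hn3 : (3 : ℝ) ≤ n := by exact_mod_cast hn
  have hp0 : 1 < p := by
    refine lt_of_lt_of_le ?_ hp1
    rw [lt_div_iff₀ (by linarith)]; linarith
  rcases le_or_gt 2 p with h2 | h2
  · have e1 : ((n : ℝ) - 1) / 2 - n / p ≤ 0 := by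
      rw [sub_nonpos, div_le_div_iff₀ two_pos (by linarith)]
      rw [le_div_iff₀ (by linarith)] at hp2
      linarith
    have e2 : ((n : ℝ) - 1) / 2 - n / p < δ := by
      rcases h with h | h
      · linarith
      · have : ((n : ℝ) - 1) / 2 - n / p < 0 := by
          rw [sub_neg, div_lt_div_iff₀ two_pos (by linarith)]
          rw [lt_div_iff₀ (by linarith)] at h
          linarith
        linarith
    have e3 : ((n : ℝ) - 1) / 4 - ((n : ℝ) - (n : ℝ) / 2) / p =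
      (((n : ℝ) - 1) / 2 - n / p) / 2 := by
      field_simp; ring
    refine mx_big n (by omega) _ p δ (by positivity) (by linarith) h2 hδ ?_ e2
    rw [e3]
    linarith
  · refine mx_small n (by omega) _ p δ (by unfold kap; linarith) (by linarith) hp0 h2 hδ ?_
    refine lt_of_lt_of_le ?_ hδ
    have : ((n : ℝ) - 3) / p < (n : ℝ) / 2 - 1 := by
      rw [div_lt_iff₀ (by linarith)]
      rw [div_le_iff₀ (by linarith)] at hp1
      nlinarith
    linarith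

end Pool.Agent.Y248.FB
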